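import Pool.Agent.Y728.CB.K16

/-!
# Complete balanced Howell rotations on `16 ^ s` partnerships

Complete balanced Howell rotations on `n = 16 ^ s` partnerships exist for every odd `s`; here
`n - 1` is never a prime power.
-/

set_option autoImplicit false

namespace Pool.Agent.Results.MP_db622c_co.PowersOfSixteen

open Pool.Agent.Y728.CB

/-- the `n × n` matrix obtained from the `(n - 1) × n` matrix `S` by appending a row of ones (the
row with the index `none`) -/
def append {n : ℕ} (S : Matrix (Fin (n - 1)) (Fin n) ℤ) :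
    Matrix (Option (Fin (n - 1))) (Fin n) ℤ := fun i j => i.elim 1 fun i => S i j

/-- `(R, S)` is a complete balanced Howell rotation on `n` partnerships (columns) and `n - 1` boards
(rows); `Fin (n - 1)` is also the set of the round numbers -/
structure IsCBHR {n : ℕ} (R : Matrix (Fin (n - 1)) (Fin n) (Fin (n - 1)))
    (S : Matrix (Fin (n - 1)) (Fin n) ℤ) : Prop where
  /-- the entries of `S` are signs -/
  sign : ∀ i j, S i j = 1 ∨ S i j = -1
  /-- condition 1 -/
  hadamard : append S * (append S).transpose = (n : ℤ) • (1 : Matrix _ _ ℤ)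
  /-- condition 2: each column of `R` contains each round number exactly once -/
  column : ∀ j, ∀ c, ∃! i, R i j = c
  /-- condition 3 -/
  meet : ∀ j k, j ≠ k → (∃! i, R i j = R i k) ∧ ∀ i, R i j = R i k → S i j = -S i k

/-- there is a complete balanced Howell rotation on `n` partnerships and `n - 1` boards -/
def CBHR (n : ℕ) : Prop :=
  ∃ (R : Matrix (Fin (n - 1)) (Fin n) (Fin (n - 1))) (S : Matrix (Fin (n - 1)) (Fin n) ℤ),
    IsCBHR R S

lemma of_rot {ι κ ρ : Type} [Fintype ι] [DecidableEq ι] [Fintype κ] [Fintype ρ] {R : ι → κ → ρ}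
    {S : ι → κ → ℤ} (h : Rot R S) {n : ℕ} (hκ : Fintype.card κ = n)
    (hι : Fintype.card ι = n - 1) (hρ : Fintype.card ρ = n - 1) : CBHR n := by
  have a : Fin (n - 1) ≃ ι := Fintype.equivOfCardEq (by rw [Fintype.card_fin, hι])
  have b : Fin n ≃ κ := Fintype.equivOfCardEq (by rw [Fintype.card_fin, hκ])
  have c : ρ ≃ Fin (n - 1) := Fintype.equivOfCardEq (by rw [Fintype.card_fin, hρ])
  have h' := h.transport a b c
  refine ⟨_, _, h'.sgn, ?_, fun j x => ?_, h'.meet⟩
  · ext i k
    rw [Matrix.mul_apply]
    simp only [Matrix.transpose_apply, Matrix.smul_apply, Matrix.one_apply]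
    cases i with
    | none =>
      cases k with
      | none => simp [append]
      | some k => simpa [append] using h'.row k
    | some i =>
      cases k with
      | none => simpa [append] using h'.row i
      | some k =>
        by_cases hik : i = k
        · subst hik
          have h1 : ∀ j, S (a i) (b j) * S (a i) (b j) = 1 := by
            intro j
            rcases h.sgn (a i) (b j) with h2 | h2 <;> rw [h2] <;> norm_num
          simp [append, h1]
        · simpa [append, hik] using h'.orth i k hik
  · obtain ⟨i, hi⟩ := (h'.col j).2 x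
    exact ⟨i, hi, fun i' hi' => (h'.col j).1 (hi'.trans hi.symm)⟩

lemma not_pp {n p q : ℕ} (hp : p.Prime) (hq : q.Prime) (hpq : p ≠ q) (h1 : p ∣ n) (h2 : q ∣ n) :
    ¬ IsPrimePow n := by
  intro h
  obtain ⟨r, -, hr⟩ := isPrimePow_iff_unique_prime_dvd.1 h
  exact hpq ((hr p ⟨hp, h1⟩).trans (hr q ⟨hq, h2⟩).symm)

lemma zmod_two : ∀ a : ZMod 2, a ≠ 1 → a = 0 := by decide

lemma sixteen {s : ℕ} (hs : Odd s) : CBHR (16 ^ s) := by
  have hs0 : s ≠ 0 := by rintro rfl; exact absurd hs (by decide)
  have : NeZero s := ⟨hs0⟩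
  have : Fact (Nat.Prime 2) := ⟨Nat.prime_two⟩
  let F := FiniteField.Extension K16 2 s
  letI : Fintype F := Fintype.ofFinite F
  letI : DecidableEq F := Classical.decEq F
  letI : Algebra (ZMod 2) F := inferInstanceAs (Algebra (ZMod 2) (FiniteField.Extension K16 2 s))
  have hch : CharP F 2 := charP_of_injective_algebraMap (algebraMap K16 F).injective 2
  have hcF : Fintype.card F = (2 ^ 4) ^ s := by
    rw [Fintype.card_eq_nat_card, FiniteField.natCard_extension, Nat.card_eq_fintype_card,
      K16.card]
  have hpa : PA (ext (algebraMap K16 F) K16.r) := K16.pa.ext K16.card hcF hs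
  obtain ⟨φ, hφ⟩ : ∃ φ : F →+ ZMod 2, φ 1 = 1 := by
    by_contra hcon
    push Not at hcon
    refine one_ne_zero ((Module.forall_dual_apply_eq_zero_iff (ZMod 2) (1 : F)).1 fun ψ => ?_)
    exact zmod_two _ (hcon ψ.toAddMonoidHom)
  have hrot := rot_field hpa hφ
  have hu : Fintype.card Fˣ = 16 ^ s - 1 := by
    rw [Fintype.card_units, hcF]
    norm_num
  exact of_rot hrot (by rw [hcF]; norm_num) hu hu

/-- For every odd `s` there is a complete balanced Howell rotation on `n = 16 ^ s` partnerships; here
`4 ∣ n` and `n - 1` is not a prime power. -/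
theorem result :
    ∀ s : ℕ, Odd s → CBHR (16 ^ s) ∧ 4 ∣ 16 ^ s ∧ ¬ IsPrimePow (16 ^ s - 1) := by
  refine fun s hs => ⟨sixteen hs, ?_, ?_⟩
  · have hs0 : s ≠ 0 := by rintro rfl; exact absurd hs (by decide)
    exact dvd_pow (by norm_num) hs0
  · have h : 15 ∣ 16 ^ s - 1 := by
      have := Nat.sub_dvd_pow_sub_pow 16 1 s
      rwa [one_pow] at this
    exact not_pp Nat.prime_three Nat.prime_five (by norm_num)
      (dvd_trans (by norm_num) h) (dvd_trans (by norm_num) h)

end Pool.Agent.Results.MP_db622c_co.PowersOfSixteen
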