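import Pool.Agent.Y728.CB.D36
import Pool.Agent.Y728.CB.D324
import Pool.Agent.Y728.CB.D900
import Pool.Agent.Y728.CB.D1764

/-!
# Complete balanced Howell rotations on 36, 324, 900 and 1764 partnerships

Complete balanced Howell rotations on `n` partnerships exist for `n = 36, 324, 900, 1764`, where
`n - 1` is a product of twin primes.
-/

set_option autoImplicit false

namespace Pool.Agent.Results.MP_db622c_co.TwinPrimeOrders

open Pool.Agent.Y728.CB

/-- the `n × n` matrix obtained from the `(n - 1) × n` matrix `S` by appending a row of ones (the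
row with the index `none`) -/
def append {n : ℕ} (S : Matrix (Fin (n - 1)) (Fin n) ℤ) :
    Matrix (Option (Fin (n - 1))) (Fin n) ℤ := fun i j => i.elim 1 fun i => S i j

/-- `(R, S)` is a complete balanced Howell rotation on `n` partnerships (columns) and `n - 1` boards
(rows); `Fin (n - 1)` is also the set of the round numbers -/
structure IsCBHR {n : ℕ} (R : Matrix (Fin (n - 1)) (Fin n) (Fin (n - 1)))
    (S : Matrix (Fin (n - 1)) (Fin n) ℤ) : Prop where
  /-- the entries of `S` are signs -/
  sign : ∀ i j, S i j = 1 ∨ S i j = -1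
  /-- condition 1 -/
  hadamard : append S * (append S).transpose = (n : ℤ) • (1 : Matrix _ _ ℤ)
  /-- condition 2: each column of `R` contains each round number exactly once -/
  column : ∀ j, ∀ c, ∃! i, R i j = c
  /-- condition 3 -/
  meet : ∀ j k, j ≠ k → (∃! i, R i j = R i k) ∧ ∀ i, R i j = R i k → S i j = -S i k

/-- there is a complete balanced Howell rotation on `n` partnerships and `n - 1` boards -/
def CBHR (n : ℕ) : Prop :=
  ∃ (R : Matrix (Fin (n - 1)) (Fin n) (Fin (n - 1))) (S : Matrix (Fin (n - 1)) (Fin n) ℤ),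
    IsCBHR R S

lemma of_rot {ι κ ρ : Type} [Fintype ι] [DecidableEq ι] [Fintype κ] [Fintype ρ] {R : ι → κ → ρ}
    {S : ι → κ → ℤ} (h : Rot R S) {n : ℕ} (hκ : Fintype.card κ = n)
    (hι : Fintype.card ι = n - 1) (hρ : Fintype.card ρ = n - 1) : CBHR n := by
  have a : Fin (n - 1) ≃ ι := Fintype.equivOfCardEq (by rw [Fintype.card_fin, hι])
  have b : Fin n ≃ κ := Fintype.equivOfCardEq (by rw [Fintype.card_fin, hκ])
  have c : ρ ≃ Fin (n - 1) := Fintype.equivOfCardEq (by rw [Fintype.card_fin, hρ])
  have h' := h.transport a b c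
  refine ⟨_, _, h'.sgn, ?_, fun j x => ?_, h'.meet⟩
  · ext i k
    rw [Matrix.mul_apply]
    simp only [Matrix.transpose_apply, Matrix.smul_apply, Matrix.one_apply]
    cases i with
    | none =>
      cases k with
      | none => simp [append]
      | some k => simpa [append] using h'.row k
    | some i =>
      cases k with
      | none => simpa [append] using h'.row i
      | some k =>
        by_cases hik : i = k
        · subst hik
          have h1 : ∀ j, S (a i) (b j) * S (a i) (b j) = 1 := by
            intro j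
            rcases h.sgn (a i) (b j) with h2 | h2 <;> rw [h2] <;> norm_num
          simp [append, h1]
        · simpa [append, hik] using h'.orth i k hik
  · obtain ⟨i, hi⟩ := (h'.col j).2 x
    exact ⟨i, hi, fun i' hi' => (h'.col j).1 (hi'.trans hi.symm)⟩

lemma not_pp {n p q : ℕ} (hp : p.Prime) (hq : q.Prime) (hpq : p ≠ q) (h1 : p ∣ n) (h2 : q ∣ n) :
    ¬ IsPrimePow n := by
  intro h
  obtain ⟨r, -, hr⟩ := isPrimePow_iff_unique_prime_dvd.1 h
  exact hpq ((hr p ⟨hp, h1⟩).trans (hr q ⟨hq, h2⟩).symm)

lemma of_fin {v : ℕ} (h : ∃ (R : Fin v → Fin (v + 1) → Fin v) (S : Fin v → Fin (v + 1) → ℤ),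
    Rot R S) : CBHR (v + 1) := by
  obtain ⟨R, S, h⟩ := h
  exact of_rot h (Fintype.card_fin _) (Fintype.card_fin _) (Fintype.card_fin _)

/-- There are complete balanced Howell rotations on `n` partnerships for
`n = 36, 324, 900, 1764`; here `4 ∣ n` and `n - 1` is not a prime power. -/
theorem result :
    ∀ n : ℕ, n = 36 ∨ n = 324 ∨ n = 900 ∨ n = 1764 →
      CBHR n ∧ 4 ∣ n ∧ ¬ IsPrimePow (n - 1) := by
  rintro n (rfl | rfl | rfl | rfl)
  · exact ⟨of_fin rot35, by norm_num,
      not_pp (p := 5) (q := 7) (by norm_num) (by norm_num) (by norm_num) (by norm_num)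
        (by norm_num)⟩
  · exact ⟨of_fin rot323, by norm_num,
      not_pp (p := 17) (q := 19) (by norm_num) (by norm_num) (by norm_num) (by norm_num)
        (by norm_num)⟩
  · exact ⟨of_fin rot899, by norm_num,
      not_pp (p := 29) (q := 31) (by norm_num) (by norm_num) (by norm_num) (by norm_num)
        (by norm_num)⟩
  · exact ⟨of_fin rot1763, by norm_num,
      not_pp (p := 41) (q := 43) (by norm_num) (by norm_num) (by norm_num) (by norm_num)
        (by norm_num)⟩

end Pool.Agent.Results.MP_db622c_co.TwinPrimeOrders
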